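import Pool.Agent.H82.RD.Targets
import Pool.Agent.H82.RD.Basic

/-!
Row LDL: powers of `1 + qh q` modulo `q ^ e`.
-/

set_option autoImplicit false

namespace Pool.Agent.H40.RD

open Pool.Agent.H82.RD

/-- `q` divides `qh q`. -/
theorem q_dvd_qh (q : ℕ) : q ∣ qh q := by
  unfold qh
  split_ifs with h
  · subst h; exact ⟨2, rfl⟩
  · exact dvd_rfl

/-- `qh q` divides `q ^ 2`. -/
theorem qh_dvd_sq (q : ℕ) : qh q ∣ q ^ 2 := by
  unfold qh
  split_ifs with h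
  · subst h; exact ⟨1, rfl⟩
  · exact Dvd.intro_left q (by ring)

theorem qh_pos {q : ℕ} (hq : q.Prime) : 0 < qh q := by
  unfold qh
  split_ifs with h
  · norm_num
  · exact hq.pos

/-- The powers `q ^ m` of `1 + qh q`. -/
theorem pow_form {q : ℕ} (hq : q.Prime) (m : ℕ) :
    ∃ y : ℤ, (1 + (qh q : ℤ)) ^ (q ^ m) = 1 + (q : ℤ) ^ m * (qh q : ℤ) * (1 + (q : ℤ) * y) := by
  have h := ZMod.exists_one_add_mul_pow_prime_pow_eq (R := ℤ) (u := (qh q : ℤ)) (v := (q : ℤ)) hq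
    (by exact_mod_cast q_dvd_qh q) ?_ 1 m
  · obtain ⟨y, hy⟩ := h
    refine ⟨y, ?_⟩
    rw [mul_one] at hy
    exact hy
  · have : q * qh q * q ∣ qh q ^ q := by
      unfold qh
      split_ifs with h2
      · subst h2; norm_num
      · have h3 : 3 ≤ q := by
          have := hq.two_le
          omega
        have : q * q * q = q ^ 3 := by ring
        rw [this]
        exact pow_dvd_pow q h3
    exact_mod_cast this

theorem one_add_pow_form (A : ℤ) (s : ℕ) : ∃ r : ℤ, (1 + A) ^ s = 1 + s * A + A ^ 2 * r := by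
  induction s with
  | zero => exact ⟨0, by simp⟩
  | succ s ih =>
    obtain ⟨r, hr⟩ := ih
    refine ⟨s + r + A * r, ?_⟩
    rw [pow_succ, hr]
    push_cast
    ring

/-- `1 + qh q` is coprime to `q`. -/
theorem coprime_g {q : ℕ} : IsCoprime (1 + (qh q : ℤ)) (q : ℤ) := by
  obtain ⟨c, hc⟩ := q_dvd_qh q
  refine ⟨1, -(c : ℤ), ?_⟩
  have : (qh q : ℤ) = (q : ℤ) * c := by exact_mod_cast hc
  rw [this]; ring

/-- The kernel of the reduction modulo `qh q` consists of powers of `1 + qh q`. -/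
theorem kernel_pow {q : ℕ} (hq : q.Prime) (x x' : ℤ) (hx' : IsCoprime x' (q : ℤ))
    (h : (qh q : ℤ) ∣ x - x') (n : ℕ) :
    ∃ z : ℕ, (qh q : ℤ) * (q : ℤ) ^ n ∣ x - x' * (1 + (qh q : ℤ)) ^ z := by
  induction n with
  | zero => exact ⟨0, by simpa using h⟩
  | succ n ih =>
    obtain ⟨z, t, ht⟩ := ih
    obtain ⟨y, hy⟩ := pow_form hq n
    -- solve `x' g^z (1 + q y) s = t` modulo `q`
    have hcop : IsCoprime (x' * (1 + (qh q : ℤ)) ^ z * (1 + (q : ℤ) * y)) (q : ℤ) := by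
      refine IsCoprime.mul_left (IsCoprime.mul_left hx' (coprime_g.pow_left)) ?_
      exact ⟨1, -y, by ring⟩
    obtain ⟨a, b, hab⟩ := hcop
    -- `s = (a t) mod q`
    have hq0 : (q : ℤ) ≠ 0 := by exact_mod_cast hq.ne_zero
    have hqpos : (0 : ℤ) < q := by exact_mod_cast hq.pos
    set s : ℕ := ((a * t) % (q : ℤ)).toNat with hs
    have hs' : (s : ℤ) = (a * t) % (q : ℤ) := by
      rw [hs]
      exact Int.toNat_of_nonneg (Int.emod_nonneg _ hq0)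
    obtain ⟨k, hk⟩ : ∃ k : ℤ, (s : ℤ) = a * t + q * k :=
      ⟨-((a * t) / q), by rw [hs']; have := Int.emod_add_mul_ediv (a * t) q; linarith⟩
    obtain ⟨r, hr⟩ := one_add_pow_form ((q : ℤ) ^ n * (qh q : ℤ) * (1 + (q : ℤ) * y)) s
    refine ⟨z + q ^ n * s, ?_⟩
    rw [pow_add (1 + (qh q : ℤ)) z, pow_mul (1 + (qh q : ℤ)), hy, hr]
    obtain ⟨c, hc⟩ : (q : ℤ) ∣ (qh q : ℤ) := by exact_mod_cast q_dvd_qh q
    -- the difference
    have hx : x = x' * (1 + (qh q : ℤ)) ^ z + (qh q : ℤ) * (q : ℤ) ^ n * t := by linarith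
    have ht2 : t = a * t * (x' * (1 + (qh q : ℤ)) ^ z * (1 + (q : ℤ) * y)) + b * q * t := by
      linear_combination (-t) * hab
    have hk' : a * t = s - q * k := by linarith
    rw [hk'] at ht2
    refine ⟨b * t - k * (x' * (1 + (qh q : ℤ)) ^ z * (1 + (q : ℤ) * y))
      - x' * (1 + (qh q : ℤ)) ^ z * (q : ℤ) ^ n * c * (1 + (q : ℤ) * y) ^ 2 * r, ?_⟩
    rw [hx]
    linear_combination ((qh q : ℤ) * (q : ℤ) ^ n) * ht2 - (qh q : ℤ) * (q : ℤ) ^ n *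
      (x' * (1 + (qh q : ℤ)) ^ z) * (q : ℤ) ^ n * (1 + (q : ℤ) * y) ^ 2 * r * hc

theorem cancel_pow {q : ℕ} (hq : q.Prime) (e c : ℕ)
    (h : (q : ℤ) ^ e ∣ (1 + (qh q : ℤ)) ^ c - 1) : q ^ (e - 2) ∣ c := by
  rcases Nat.eq_zero_or_pos c with hc | hc
  · subst hc; exact dvd_zero _
  obtain ⟨m, c', hc', hcc⟩ := Nat.exists_eq_pow_mul_and_not_dvd hc.ne' q hq.ne_one
  by_contra hne
  have hm : m < e - 2 := by
    by_contra hm
    push Not at hm
    apply hne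
    rw [hcc]
    exact dvd_mul_of_dvd_left (pow_dvd_pow q hm) c'
  obtain ⟨y, hy⟩ := pow_form hq m
  obtain ⟨r, hr⟩ := one_add_pow_form ((q : ℤ) ^ m * (qh q : ℤ) * (1 + (q : ℤ) * y)) c'
  rw [hcc, pow_mul, hy, hr] at h
  have h1 : (1 : ℤ) + c' * ((q : ℤ) ^ m * (qh q : ℤ) * (1 + (q : ℤ) * y)) +
      ((q : ℤ) ^ m * (qh q : ℤ) * (1 + (q : ℤ) * y)) ^ 2 * r - 1 =
      (q : ℤ) ^ m * ((qh q : ℤ) * ((1 + (q : ℤ) * y) * (c' + (q : ℤ) ^ m * (qh q : ℤ) *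
        (1 + (q : ℤ) * y) * r))) := by ring
  rw [h1] at h
  have h2 : (q : ℤ) ^ (m + 3) ∣ (q : ℤ) ^ m * ((qh q : ℤ) * ((1 + (q : ℤ) * y) *
      (c' + (q : ℤ) ^ m * (qh q : ℤ) * (1 + (q : ℤ) * y) * r))) :=
    (pow_dvd_pow (q : ℤ) (by omega)).trans h
  rw [pow_add] at h2
  have hq0 : (q : ℤ) ≠ 0 := by exact_mod_cast hq.ne_zero
  have h3 : (q : ℤ) ^ 3 ∣ (qh q : ℤ) * ((1 + (q : ℤ) * y) *
      (c' + (q : ℤ) ^ m * (qh q : ℤ) * (1 + (q : ℤ) * y) * r)) :=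
    Int.dvd_of_mul_dvd_mul_left (pow_ne_zero m hq0) h2
  obtain ⟨d, hd⟩ := q_dvd_qh q
  have hd' : (qh q : ℤ) = (q : ℤ) * d := by exact_mod_cast hd
  have hcop : IsCoprime ((q : ℤ) ^ 3) ((1 + (q : ℤ) * y) *
      (c' + (q : ℤ) ^ m * (qh q : ℤ) * (1 + (q : ℤ) * y) * r)) := by
    apply IsCoprime.pow_left
    refine IsCoprime.mul_right ⟨-y, 1, by ring⟩ ?_
    rw [hd']
    have h4 : IsCoprime (q : ℤ) (c' : ℤ) := by
      rw [Nat.isCoprime_iff_coprime]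
      exact (Nat.Prime.coprime_iff_not_dvd hq).2 hc'
    have h5 : (c' : ℤ) + (q : ℤ) ^ m * ((q : ℤ) * d) * (1 + (q : ℤ) * y) * r =
        c' + (q : ℤ) * ((q : ℤ) ^ m * d * (1 + (q : ℤ) * y) * r) := by ring
    rw [h5]
    exact IsCoprime.add_mul_left_right h4 _
  have h6 : (q : ℤ) ^ 3 ∣ (qh q : ℤ) := hcop.dvd_of_dvd_mul_right h3
  have h7 : (q : ℤ) ^ 3 ∣ (q : ℤ) ^ 2 := h6.trans (by exact_mod_cast qh_dvd_sq q)
  have h8 : q ^ 3 ∣ q ^ 2 := by exact_mod_cast h7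
  have h9 := Nat.le_of_dvd (pow_pos hq.pos 2) h8
  have h10 : q ^ 2 < q ^ 3 := Nat.pow_lt_pow_right hq.one_lt (by norm_num)
  omega

theorem pf_LDL : T_LDL := by
  intro q e hq
  refine ⟨?_, ?_, ?_⟩
  · intro x x' hx hx' h
    have h1 : (qh q : ℤ) ∣ (x : ℤ) - x' := by
      have := (Nat.modEq_iff_dvd.1 h.symm)
      exact this
    have h2 : IsCoprime (x' : ℤ) (q : ℤ) := Nat.isCoprime_iff_coprime.2 hx'
    obtain ⟨z, hz⟩ := kernel_pow hq x x' h2 h1 e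
    refine ⟨z, ?_⟩
    apply Nat.ModEq.symm
    rw [Nat.modEq_iff_dvd]
    push_cast
    exact (Dvd.intro_left _ rfl).trans hz
  · intro a b h
    wlog hab : a ≤ b generalizing a b
    · exact (this b a h.symm (by omega)).symm
    obtain ⟨c, rfl⟩ := Nat.exists_eq_add_of_le hab
    have h1 := Nat.modEq_iff_dvd.1 h
    push_cast at h1
    have h2 : (1 + (qh q : ℤ)) ^ (a + c) - (1 + (qh q : ℤ)) ^ a =
        (1 + (qh q : ℤ)) ^ a * ((1 + (qh q : ℤ)) ^ c - 1) := by rw [pow_add]; ring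
    rw [h2] at h1
    have h3 : IsCoprime ((q : ℤ) ^ e) ((1 + (qh q : ℤ)) ^ a) :=
      (coprime_g (q := q)).symm.pow
    have h4 := h3.dvd_of_dvd_mul_left h1
    have h5 := cancel_pow hq e c h4
    rw [Nat.modEq_iff_dvd]
    push_cast
    rw [add_sub_cancel_left]
    exact_mod_cast h5
  · intro x hx
    unfold qh ph
    split_ifs with h
    · subst h
      have := Nat.ModEq.pow_totient (x := x) (n := 4) (by
        have : (4 : ℕ) = 2 ^ 2 := by norm_num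
        rw [this]
        exact Nat.Coprime.pow_right 2 hx)
      have h4 : Nat.totient 4 = 2 := by decide
      rwa [h4] at this
    · have := Nat.ModEq.pow_totient (x := x) (n := q) hx
      rwa [Nat.totient_prime hq] at this

end Pool.Agent.H40.RD
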